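import Pool.Agent.H706R2.FM.Defs

/-!
# Integration by parts in dimension `n` (task A1)
-/

namespace Pool.Agent.H706R2.FM

open MeasureTheory Real Set Filter Topology
open scoped RealInnerProductSpace ENNReal

namespace A1aux

variable {n N : ℕ}

/-- `wc l` as a continuous linear map -/
noncomputable def wcL (l : E n) : V n →L[ℝ] ℂ :=
  (Complex.equivRealProdCLM.symm : (ℝ × ℝ) →L[ℝ] ℂ) ∘L
    (((innerSL ℝ l) ∘L (ContinuousLinearMap.fst ℝ (E n) (E n))).prod
      ((innerSL ℝ l) ∘L (ContinuousLinearMap.snd ℝ (E n) (E n))))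

theorem wcL_apply (l : E n) (z : V n) : wcL l z = wc l z := by
  apply Complex.ext
  · simp [wcL, wc]
  · simp [wcL, wc]

theorem wc_add (l : E n) (z z' : V n) : wc l (z + z') = wc l z + wc l z' := by
  rw [← wcL_apply, ← wcL_apply, ← wcL_apply, map_add]

theorem wc_smul (l : E n) (t : ℝ) (z : V n) : wc l (t • z) = t • wc l z := by
  rw [← wcL_apply, ← wcL_apply, map_smul]

theorem continuous_wc (l : E n) : Continuous (wc l) := by
  have h : wc l = wcL l := by
    funext z
    rw [wcL_apply]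
  rw [h]
  exact (wcL l).continuous

section

variable {W : Set ℂ} {p : Fin N → ℕ} {κ : Fin N → ℝ} {R Rx Ru ρ : Fin N → ℂ → ℝ}
  {l : Fin N → E n}

theorem isOpen_Om (hW : IsOpen W) : IsOpen (Om W l) := by
  have h : Om W l = ⋂ i, (wc (l i)) ⁻¹' W := by
    ext z
    simp [Om]
  rw [h]
  exact isOpen_iInter_of_finite fun i => hW.preimage (continuous_wc (l i))

theorem contOn_comp (F : ℂ → ℝ) (hF : ContinuousOn F W) (i : Fin N) :
    ContinuousOn (fun z => F (wc (l i) z)) (Om W l) :=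
  hF.comp (continuous_wc (l i)).continuousOn fun _ hz => hz i

theorem contOn_R (D : Data W p κ R Rx Ru ρ l) (i : Fin N) : ContinuousOn (R i) W := fun w hw =>
  ((D.pot i).dR w hw).continuousAt.continuousWithinAt

theorem contOn_GG (D : Data W p κ R Rx Ru ρ l) : ContinuousOn (GG R l) (Om W l) := by
  unfold GG
  exact continuousOn_finsetSum _ fun i _ => contOn_comp (R i) (contOn_R D i) i

theorem inner_zero_of_span (hspan : Submodule.span ℝ (range l) = ⊤) {x : E n}
    (h : ∀ i, ⟪l i, x⟫ = 0) : x = 0 := by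
  have h1 : ∀ y ∈ Submodule.span ℝ (range l), ⟪y, x⟫ = 0 := by
    intro y hy
    induction hy using Submodule.span_induction with
    | mem y hy =>
      obtain ⟨i, rfl⟩ := hy
      exact h i
    | zero => simp
    | add a b _ _ ha hb => rw [inner_add_left, ha, hb, add_zero]
    | smul c a _ ha => rw [inner_smul_left, ha, mul_zero]
  have h2 := h1 x (by rw [hspan]; trivial)
  simpa using h2

theorem isCompact_K (D : Data W p κ R Rx Ru ρ l) {C : ℝ} (hC : C < 1) :
    IsCompact {z | z ∈ Om W l ∧ GG R l z ≤ C} := by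
  let T : V n →ₗ[ℝ] (Fin N → ℂ) := LinearMap.pi fun i => (wcL (l i)).toLinearMap
  have hT : ∀ z i, T z i = wc (l i) z := by
    intro z i
    simp [T, wcL_apply]
  have hinj : Function.Injective T := by
    rw [injective_iff_map_eq_zero]
    intro z hz
    have h1 : ∀ i, wc (l i) z = 0 := by
      intro i
      rw [← hT, hz]
      rfl
    have h2 : z.1 = 0 := inner_zero_of_span D.span fun i => by
      have := congrArg Complex.re (h1 i)
      simpa [wc] using this
    have h3 : z.2 = 0 := inner_zero_of_span D.span fun i => by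
      have := congrArg Complex.im (h1 i)
      simpa [wc] using this
    exact Prod.ext h2 h3
  have hemb := LinearMap.isClosedEmbedding_of_injective (LinearMap.ker_eq_bot.2 hinj)
  set K' : Set (V n) := T ⁻¹' (Set.pi univ fun i => {w | w ∈ W ∧ R i w ≤ C}) with hK'
  have hK'c : IsCompact K' :=
    hemb.isCompact_preimage (isCompact_univ_pi fun i => (D.pot i).proper C hC)
  have hK'sub : K' ⊆ Om W l := by
    intro z hz i
    have := hz i (mem_univ i)
    rw [hT] at this
    exact this.1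
  have hcl : IsClosed (K' ∩ (GG R l) ⁻¹' (Iic C)) :=
    ((contOn_GG D).mono hK'sub).preimage_isClosed_of_isClosed hK'c.isClosed isClosed_Iic
  have heq : {z | z ∈ Om W l ∧ GG R l z ≤ C} = K' ∩ (GG R l) ⁻¹' (Iic C) := by
    ext z
    constructor
    · rintro ⟨hz, hG⟩
      refine ⟨?_, hG⟩
      intro i _
      rw [hT]
      refine ⟨hz i, ?_⟩
      refine le_trans ?_ hG
      unfold GG
      exact Finset.single_le_sum (f := fun i => R i (wc (l i) z))
        (fun j _ => (D.pot j).Rnn _ (hz j)) (Finset.mem_univ i)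
    · rintro ⟨hz, hG⟩
      exact ⟨hK'sub hz, hG⟩
  rw [heq]
  exact hK'c.of_isClosed_subset hcl inter_subset_left

/-- the integral of a line derivative vanishes -/
theorem integral_lineDeriv_zero (f f' : V n → ℝ) (v : V n)
    (hf : ∀ z, HasLineDerivAt ℝ f (f' z) z v)
    (hi : Integrable f) (hi' : Integrable f') : ∫ z, f' z = 0 := by
  have : (volume : Measure (V n)).IsAddHaarMeasure :=
    inferInstanceAs (Measure.prod (volume : Measure (E n)) (volume : Measure (E n))).IsAddHaarMeasure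
  have h := integral_bilinear_hasLineDerivAt_right_eq_neg_left_of_integrable
    (μ := (volume : Measure (V n))) (f := fun _ => (1 : ℝ)) (f' := fun _ => (0 : ℝ)) (g := f)
    (g' := f') (v := v) (B := ContinuousLinearMap.mul ℝ ℝ) (by simp) (by simpa using hi')
    (by simpa using hi) (fun x _ => by
      unfold HasLineDerivAt
      exact hasDerivAt_const _ _) (fun x _ => hf x)
  simpa using h

/-- the field -/
noncomputable def Ph (β : ℝ → ℝ) (R ρ : Fin N → ℂ → ℝ) (l : Fin N → E n) (F : ℂ → ℝ)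
    (S : Finset (Fin n)) (I : Fin n → Fin N) (i₀ : Fin N) (z : V n) : ℝ :=
  β (GG R l z) * (∏ k ∈ S, ρ (I k) (wc (l (I k)) z)) * F (wc (l i₀) z)

/-- its derivative in direction `a`, if `wc (l (I k)) a = 0` for `k ∈ S` -/
noncomputable def Ph' (β : ℝ → ℝ) (R Rx Ru ρ : Fin N → ℂ → ℝ) (l : Fin N → E n) (F : ℂ → ℝ)
    (S : Finset (Fin n)) (I : Fin n → Fin N) (i₀ : Fin N) (a z : V n) : ℝ :=
  deriv β (GG R l z) * (∑ i, (Rx i (wc (l i) z) * (wc (l i) a).re +
      Ru i (wc (l i) z) * (wc (l i) a).im)) *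
      (∏ k ∈ S, ρ (I k) (wc (l (I k)) z)) * F (wc (l i₀) z) +
    β (GG R l z) * (∏ k ∈ S, ρ (I k) (wc (l (I k)) z)) *
      fderiv ℝ F (wc (l i₀) z) (wc (l i₀) a)

theorem hasLineDerivAt_Ph (D : Data W p κ R Rx Ru ρ l) {β : ℝ → ℝ} (hβ : ContDiff ℝ 1 β)
    {F : ℂ → ℝ} (hF : ContDiffOn ℝ 1 F W) (S : Finset (Fin n)) (I : Fin n → Fin N) (i₀ : Fin N)
    {a : V n} (ha : ∀ k ∈ S, wc (l (I k)) a = 0) {z : V n} (hz : z ∈ Om W l) :
    HasLineDerivAt ℝ (Ph β R ρ l F S I i₀) (Ph' β R Rx Ru ρ l F S I i₀ a z) z a := by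
  unfold HasLineDerivAt
  -- one variable facts
  have hw : ∀ i, HasDerivAt (fun t : ℝ => wc (l i) (z + t • a)) (wc (l i) a) 0 := by
    intro i
    have h1 : (fun t : ℝ => wc (l i) (z + t • a)) = fun t : ℝ => wc (l i) z + t • wc (l i) a := by
      funext t
      rw [wc_add, wc_smul]
    rw [h1]
    have h2 : HasDerivAt (fun t : ℝ => t • wc (l i) a) ((1 : ℝ) • wc (l i) a) 0 :=
      (hasDerivAt_id (0 : ℝ)).smul_const _
    rw [one_smul] at h2
    exact h2.const_add _
  have hG : HasDerivAt (fun t : ℝ => GG R l (z + t • a))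
      (∑ i, (Rx i (wc (l i) z) * (wc (l i) a).re + Ru i (wc (l i) z) * (wc (l i) a).im)) 0 := by
    unfold GG
    apply HasDerivAt.fun_sum
    intro i _
    have h1 := (D.pot i).dR (wc (l i) z) (hz i)
    have h2 : HasFDerivAt (R i) (Rx i (wc (l i) z) • Complex.reCLM +
        Ru i (wc (l i) z) • Complex.imCLM) (wc (l i) (z + (0 : ℝ) • a)) := by
      simpa using h1
    have h3 := h2.comp_hasDerivAt (0 : ℝ) (hw i)
    simpa [Function.comp_def] using h3
  have hβG : HasDerivAt (fun t : ℝ => β (GG R l (z + t • a)))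
      (deriv β (GG R l z) * (∑ i, (Rx i (wc (l i) z) * (wc (l i) a).re +
        Ru i (wc (l i) z) * (wc (l i) a).im))) 0 := by
    have h1 : HasDerivAt β (deriv β (GG R l (z + (0 : ℝ) • a))) (GG R l (z + (0 : ℝ) • a)) :=
      (hβ.differentiable (by norm_num) _).hasDerivAt
    have h2 := h1.comp (0 : ℝ) hG
    simpa [Function.comp_def] using h2
  have hFw : HasDerivAt (fun t : ℝ => F (wc (l i₀) (z + t • a)))
      (fderiv ℝ F (wc (l i₀) z) (wc (l i₀) a)) 0 := by
    have h1 : HasFDerivAt F (fderiv ℝ F (wc (l i₀) (z + (0 : ℝ) • a)))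
        (wc (l i₀) (z + (0 : ℝ) • a)) := by
      have h3 : wc (l i₀) (z + (0 : ℝ) • a) ∈ W := by
        simpa using hz i₀
      exact ((hF.differentiableOn (by norm_num) _ h3).differentiableAt
        (D.dom.isOpen.mem_nhds h3)).hasFDerivAt
    have h2 := h1.comp_hasDerivAt (0 : ℝ) (hw i₀)
    simpa [Function.comp_def] using h2
  have hP : ∀ t : ℝ, (∏ k ∈ S, ρ (I k) (wc (l (I k)) (z + t • a))) =
      ∏ k ∈ S, ρ (I k) (wc (l (I k)) z) := by
    intro t
    refine Finset.prod_congr rfl fun k hk => ?_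
    rw [wc_add, wc_smul, ha k hk, smul_zero, add_zero]
  have h := (hβG.mul_const (∏ k ∈ S, ρ (I k) (wc (l (I k)) z))).mul hFw
  have he : (fun t : ℝ => Ph β R ρ l F S I i₀ (z + t • a)) =
      (fun t : ℝ => β (GG R l (z + t • a)) * ∏ k ∈ S, ρ (I k) (wc (l (I k)) z)) *
        fun t : ℝ => F (wc (l i₀) (z + t • a)) := by
    funext t
    simp only [Ph, Pi.mul_apply, hP]
  rw [he]
  refine h.congr_deriv ?_
  simp only [Ph', zero_smul, add_zero]

theorem deriv_zero_of_gt {β : ℝ → ℝ} {C : ℝ} (hβ0 : ∀ t, C ≤ t → β t = 0) {t : ℝ} (ht : C < t) :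
    deriv β t = 0 := by
  have h1 : β =ᶠ[𝓝 t] fun _ => 0 := by
    filter_upwards [Ioi_mem_nhds ht] with s hs
    exact hβ0 s (le_of_lt hs)
  rw [h1.deriv_eq]
  simp

/-- the integral over `Om` of the derivative of the field vanishes -/
theorem integral_Ph' (D : Data W p κ R Rx Ru ρ l) {β : ℝ → ℝ} (hβ : ContDiff ℝ 1 β)
    {C : ℝ} (hC : C < 1) (hβ0 : ∀ t, C ≤ t → β t = 0)
    {F : ℂ → ℝ} (hF : ContDiffOn ℝ 1 F W) (S : Finset (Fin n)) (I : Fin n → Fin N) (i₀ : Fin N)
    {a : V n} (ha : ∀ k ∈ S, wc (l (I k)) a = 0) :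
    IntegrableOn (Ph' β R Rx Ru ρ l F S I i₀ a) (Om W l) ∧
      ∫ z in Om W l, Ph' β R Rx Ru ρ l F S I i₀ a z = 0 := by
  classical
  have hWo := D.dom.isOpen
  have hOm := isOpen_Om (l := l) hWo
  set K : Set (V n) := {z | z ∈ Om W l ∧ GG R l z ≤ C} with hK
  have hKc : IsCompact K := isCompact_K D hC
  have hKsub : K ⊆ Om W l := fun z hz => hz.1
  have hcG := contOn_GG D
  have hcP : ContinuousOn (fun z => ∏ k ∈ S, ρ (I k) (wc (l (I k)) z)) (Om W l) :=
    continuousOn_finsetProd _ fun k _ =>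
      contOn_comp (ρ (I k)) (D.pot (I k)).smρ.continuousOn (I k)
  have hcF : ContinuousOn (fun z => F (wc (l i₀) z)) (Om W l) :=
    contOn_comp F hF.continuousOn i₀
  have hcF' : ContinuousOn (fun z => fderiv ℝ F (wc (l i₀) z) (wc (l i₀) a)) (Om W l) := by
    have h1 : ContinuousOn (fderiv ℝ F) W := hF.continuousOn_fderiv_of_isOpen hWo le_rfl
    have h2 : ContinuousOn (fun z => fderiv ℝ F (wc (l i₀) z)) (Om W l) :=
      h1.comp (continuous_wc (l i₀)).continuousOn fun z hz => hz i₀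
    exact h2.clm_apply continuousOn_const
  have hcβ : ContinuousOn (fun z => β (GG R l z)) (Om W l) :=
    hβ.continuous.comp_continuousOn hcG
  have hcβ' : ContinuousOn (fun z => deriv β (GG R l z)) (Om W l) :=
    (hβ.continuous_deriv le_rfl).comp_continuousOn hcG
  have hcS : ContinuousOn (fun z => ∑ i, (Rx i (wc (l i) z) * (wc (l i) a).re +
      Ru i (wc (l i) z) * (wc (l i) a).im)) (Om W l) :=
    continuousOn_finsetSum _ fun i _ =>
      ((contOn_comp (Rx i) (D.pot i).smRx.continuousOn i).mul continuousOn_const).add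
        ((contOn_comp (Ru i) (D.pot i).smRu.continuousOn i).mul continuousOn_const)
  have hcPh : ContinuousOn (Ph β R ρ l F S I i₀) (Om W l) := (hcβ.mul hcP).mul hcF
  have hcPh' : ContinuousOn (Ph' β R Rx Ru ρ l F S I i₀ a) (Om W l) :=
    (((hcβ'.mul hcS).mul hcP).mul hcF).add ((hcβ.mul hcP).mul hcF')
  have hout : ∀ z ∈ Om W l, z ∉ K → Ph β R ρ l F S I i₀ z = 0 ∧
      Ph' β R Rx Ru ρ l F S I i₀ a z = 0 := by
    intro z hz hzK
    have h1 : C < GG R l z := by
      by_contra h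
      exact hzK ⟨hz, not_lt.1 h⟩
    have h2 := hβ0 _ h1.le
    have h3 := deriv_zero_of_gt hβ0 h1
    constructor
    · simp [Ph, h2]
    · simp [Ph', h2, h3]
  have he : (Om W l).indicator (Ph β R ρ l F S I i₀) = K.indicator (Ph β R ρ l F S I i₀) := by
    funext z
    by_cases hz : z ∈ Om W l
    · by_cases hzK : z ∈ K
      · rw [indicator_of_mem hz, indicator_of_mem hzK]
      · rw [indicator_of_mem hz, indicator_of_notMem hzK, (hout z hz hzK).1]
    · rw [indicator_of_notMem hz, indicator_of_notMem fun h => hz (hKsub h)]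
  have he' : (Om W l).indicator (Ph' β R Rx Ru ρ l F S I i₀ a) =
      K.indicator (Ph' β R Rx Ru ρ l F S I i₀ a) := by
    funext z
    by_cases hz : z ∈ Om W l
    · by_cases hzK : z ∈ K
      · rw [indicator_of_mem hz, indicator_of_mem hzK]
      · rw [indicator_of_mem hz, indicator_of_notMem hzK, (hout z hz hzK).2]
    · rw [indicator_of_notMem hz, indicator_of_notMem fun h => hz (hKsub h)]
  have hi : Integrable ((Om W l).indicator (Ph β R ρ l F S I i₀)) := by
    rw [he, integrable_indicator_iff hKc.measurableSet]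
    exact (hcPh.mono hKsub).integrableOn_compact hKc
  have hi' : Integrable ((Om W l).indicator (Ph' β R Rx Ru ρ l F S I i₀ a)) := by
    rw [he', integrable_indicator_iff hKc.measurableSet]
    exact (hcPh'.mono hKsub).integrableOn_compact hKc
  refine ⟨(integrable_indicator_iff hOm.measurableSet).1 hi', ?_⟩
  rw [← integral_indicator hOm.measurableSet]
  refine integral_lineDeriv_zero _ _ a (fun z => ?_) hi hi'
  by_cases hz : z ∈ Om W l
  · rw [indicator_of_mem hz]
    refine (hasLineDerivAt_Ph D hβ hF S I i₀ ha hz).congr_of_eventuallyEq ?_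
    filter_upwards [hOm.mem_nhds hz] with z' hz'
    rw [indicator_of_mem hz']
  · rw [indicator_of_notMem hz]
    have h1 : (Om W l).indicator (Ph β R ρ l F S I i₀) =ᶠ[𝓝 z] fun _ => 0 := by
      have h2 : z ∉ K := fun h => hz (hKsub h)
      filter_upwards [hKc.isClosed.isOpen_compl.mem_nhds h2] with z' hz'
      rw [he, indicator_of_notMem hz']
    refine HasLineDerivAt.congr_of_eventuallyEq ?_ h1
    unfold HasLineDerivAt
    exact hasDerivAt_const _ _

end

section

variable {m : ℕ}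

/-- the cofactor vector -/
noncomputable def cof (l : Fin N → E (m + 1)) (I : Fin (m + 1) → Fin N) : E (m + 1) :=
  WithLp.toLp 2 fun j => ((Mx l I).updateRow 0 (fun i => if j = i then 1 else 0)).det

theorem inner_cof (l : Fin N → E (m + 1)) (I : Fin (m + 1) → Fin N) (c : E (m + 1)) :
    ⟪c, cof l I⟫ = ((Mx l I).updateRow 0 (fun j => c j)).det := by
  have h1 := LinearMap.pi_apply_eq_sum_univ
    ((LinearMap.proj 0 : (Fin (m + 1) → ℝ) →ₗ[ℝ] ℝ).comp (Matrix.cramer (Mx l I).transpose))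
    (fun j => c j)
  simp only [LinearMap.comp_apply, LinearMap.proj_apply, Matrix.cramer_transpose_apply,
    smul_eq_mul] at h1
  rw [h1, PiLp.inner_apply]
  refine Finset.sum_congr rfl fun j _ => ?_
  simp [cof, mul_comm]

theorem inner_cof_ne (l : Fin N → E (m + 1)) (I : Fin (m + 1) → Fin N) {k : Fin (m + 1)}
    (hk : k ≠ 0) : ⟪l (I k), cof l I⟫ = 0 := by
  rw [inner_cof]
  refine Matrix.det_zero_of_row_eq (i := 0) (j := k) hk.symm ?_
  rw [Matrix.updateRow_self, Matrix.updateRow_ne hk]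
  rfl

theorem inner_cof_zero (l : Fin N → E (m + 1)) (I : Fin (m + 1) → Fin N) :
    ⟪l (I 0), cof l I⟫ = (Mx l I).det := by
  rw [inner_cof]
  congr 1
  exact Matrix.updateRow_eq_self (Mx l I) 0

theorem sum_cof (l : Fin N → E (m + 1)) (I : Fin (m + 1) → Fin N) (r : Fin N → ℝ) :
    ∑ i, r i * ⟪l i, cof l I⟫ =
      ((Mx l I).updateRow 0 (fun j => ∑ i, r i * l i j)).det := by
  have h := inner_cof l I (∑ i, r i • l i)
  rw [sum_inner] at h
  simp only [inner_smul_left, RCLike.conj_to_real] at h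
  rw [h]
  congr 2
  funext j
  simp

theorem wc_fst (l v : E n) : wc l ((v, 0) : V n) = (⟪l, v⟫ : ℝ) • (1 : ℂ) := by
  apply Complex.ext <;> simp [wc]

theorem wc_snd (l v : E n) : wc l ((0, v) : V n) = (⟪l, v⟫ : ℝ) • Complex.I := by
  apply Complex.ext <;> simp [wc]

end

end A1aux

open A1aux in
/-- A1. Integration by parts `(N')`. -/
theorem A1_ibp {m N : ℕ} {W : Set ℂ} {p : Fin N → ℕ} {κ : Fin N → ℝ}
    {R Rx Ru ρ : Fin N → ℂ → ℝ} {l : Fin N → E (m + 1)} (D : Data W p κ R Rx Ru ρ l)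
    (β : ℝ → ℝ) (hβ : ContDiff ℝ 1 β) {C : ℝ} (hC : C < 1) (hβ0 : ∀ t, C ≤ t → β t = 0) :
    ∫ z in Om W l, (β (GG R l z) * DD ρ l z + deriv β (GG R l z) * TT Rx Ru ρ l z) = 0 := by
  classical
  have hOm := isOpen_Om (l := l) D.dom.isOpen
  set S : Finset (Fin (m + 1)) := Finset.univ.erase 0 with hS
  have h1 : ∀ I : Fin (m + 1) → Fin N,
      IntegrableOn (Ph' β R Rx Ru ρ l (Rx (I 0)) S I (I 0) (cof l I, 0)) (Om W l) ∧
      ∫ z in Om W l, Ph' β R Rx Ru ρ l (Rx (I 0)) S I (I 0) (cof l I, 0) z = 0 := by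
    intro I
    refine integral_Ph' D hβ hC hβ0 (D.pot (I 0)).smRx S I (I 0) fun k hk => ?_
    rw [wc_fst, inner_cof_ne l I (Finset.ne_of_mem_erase hk), zero_smul]
  have h2 : ∀ I : Fin (m + 1) → Fin N,
      IntegrableOn (Ph' β R Rx Ru ρ l (Ru (I 0)) S I (I 0) (0, cof l I)) (Om W l) ∧
      ∫ z in Om W l, Ph' β R Rx Ru ρ l (Ru (I 0)) S I (I 0) (0, cof l I) z = 0 := by
    intro I
    refine integral_Ph' D hβ hC hβ0 (D.pot (I 0)).smRu S I (I 0) fun k hk => ?_
    rw [wc_snd, inner_cof_ne l I (Finset.ne_of_mem_erase hk), zero_smul]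
  have key : ∀ z ∈ Om W l, β (GG R l z) * DD ρ l z + deriv β (GG R l z) * TT Rx Ru ρ l z =
      ∑ I : Fin (m + 1) → Fin N, (Mx l I).det *
        (Ph' β R Rx Ru ρ l (Rx (I 0)) S I (I 0) (cof l I, 0) z +
          Ph' β R Rx Ru ρ l (Ru (I 0)) S I (I 0) (0, cof l I) z) := by
    intro z hz
    unfold DD TT
    rw [Finset.mul_sum, Finset.mul_sum, ← Finset.sum_add_distrib]
    refine Finset.sum_congr rfl fun I _ => ?_
    have hl := (D.pot (I 0)).lap _ (hz (I 0))
    have hprod : ∏ k, ρ (I k) (wc (l (I k)) z) =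
        ρ (I 0) (wc (l (I 0)) z) * ∏ k ∈ S, ρ (I k) (wc (l (I k)) z) :=
      (Finset.mul_prod_erase Finset.univ (fun k => ρ (I k) (wc (l (I k)) z))
        (Finset.mem_univ 0)).symm
    rw [hprod, ← hl]
    unfold Ph'
    have e1 : ∀ i, Rx i (wc (l i) z) * (wc (l i) ((cof l I, 0) : V (m + 1))).re +
        Ru i (wc (l i) z) * (wc (l i) ((cof l I, 0) : V (m + 1))).im =
        Rx i (wc (l i) z) * ⟪l i, cof l I⟫ := by
      intro i
      simp [wc]
    have e2 : ∀ i, Rx i (wc (l i) z) * (wc (l i) ((0, cof l I) : V (m + 1))).re +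
        Ru i (wc (l i) z) * (wc (l i) ((0, cof l I) : V (m + 1))).im =
        Ru i (wc (l i) z) * ⟪l i, cof l I⟫ := by
      intro i
      simp [wc]
    simp only [e1, e2]
    rw [sum_cof l I (fun i => Rx i (wc (l i) z)), sum_cof l I (fun i => Ru i (wc (l i) z)),
      wc_fst, wc_snd, inner_cof_zero, map_smul, map_smul, smul_eq_mul, smul_eq_mul]
    ring
  rw [setIntegral_congr_fun hOm.measurableSet key]
  have hint : ∀ I ∈ (Finset.univ : Finset (Fin (m + 1) → Fin N)), Integrable (fun z =>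
      (Mx l I).det * (Ph' β R Rx Ru ρ l (Rx (I 0)) S I (I 0) (cof l I, 0) z +
        Ph' β R Rx Ru ρ l (Ru (I 0)) S I (I 0) (0, cof l I) z))
      (volume.restrict (Om W l)) := by
    intro I _
    have h4 := ((h1 I).1.add (h2 I).1).const_mul (Mx l I).det
    exact h4
  rw [integral_finsetSum _ hint]
  refine Finset.sum_eq_zero fun I _ => ?_
  rw [integral_const_mul]
  have h3 : ∫ z in Om W l, (Ph' β R Rx Ru ρ l (Rx (I 0)) S I (I 0) (cof l I, 0) z +
      Ph' β R Rx Ru ρ l (Ru (I 0)) S I (I 0) (0, cof l I) z) = 0 := by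
    rw [integral_add (h1 I).1 (h2 I).1, (h1 I).2, (h2 I).2, add_zero]
  rw [h3, mul_zero]

end Pool.Agent.H706R2.FM
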